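import Pool.Agent.Y554.DP.Stm2

/-!
# First moment method for the dimension of a random set of times (`S_UPA`)
-/

set_option autoImplicit false

open MeasureTheory Filter Topology Set
open scoped ENNReal NNReal

namespace Pool.Agent.Y681.DP

/-- The step for one exponent. -/
lemma core {β : ℝ} {Ω : Type} [MeasurableSpace Ω] (μ : Measure Ω) [IsProbabilityMeasure μ]
    (E : Ω → Set ℝ) (C : ℝ) (A : ℕ → ℕ → Set Ω) (hE : ∀ w, E w ⊆ Set.Icc 0 1)
    (hA : ∀ n i, MeasurableSet (A n i))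
    (hC : ∀ n i : ℕ, i < 2 ^ n → μ.real (A n i) ≤ C * ((1 / 2 : ℝ) ^ n) ^ β)
    (hcov : ∀ᵐ w ∂μ, ∀ t ∈ E w, ∀ n i : ℕ, i < 2 ^ n → (i:ℝ) / 2 ^ n ≤ t →
        t ≤ ((i:ℝ) + 1) / 2 ^ n → w ∈ A n i) (s : ℝ≥0) (hs0 : 0 < s) (hs : 1 - β < s) :
    ∀ᵐ w ∂μ, dimH (E w) ≤ s := by
  classical
  set r : ℕ → ℝ≥0∞ := fun n => ENNReal.ofReal ((1 / 2 : ℝ) ^ n) with hr
  set g : ℕ → Ω → ℝ≥0∞ := fun n w =>
    ∑ i ∈ Finset.range (2 ^ n), (A n i).indicator (fun _ => r n ^ (s : ℝ)) w with hg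
  have hgm : ∀ n, Measurable (g n) := by
    intro n
    exact Finset.measurable_fun_sum _ (fun i _ => measurable_const.indicator (hA n i))
  set ρ : ℝ := (1 / 2 : ℝ) ^ ((s : ℝ) + β - 1) with hρ
  have hρ0 : 0 < ρ := by positivity
  have hρ1 : ρ < 1 := Real.rpow_lt_one (by norm_num) (by norm_num) (by linarith)
  have hint : ∀ n, ∫⁻ w, g n w ∂μ ≤ ENNReal.ofReal (|C| * ρ ^ n) := by
    intro n
    have h0 : (0:ℝ) < (1 / 2 : ℝ) ^ n := by positivity
    have h1 : ∫⁻ w, g n w ∂μ = ∑ i ∈ Finset.range (2 ^ n), r n ^ (s : ℝ) * μ (A n i) := by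
      rw [hg]
      simp only []
      rw [lintegral_finsetSum _ (fun i _ => measurable_const.indicator (hA n i))]
      apply Finset.sum_congr rfl
      intro i _
      rw [lintegral_indicator_const (hA n i)]
    rw [h1]
    have h2 : ∀ i ∈ Finset.range (2 ^ n), r n ^ (s : ℝ) * μ (A n i) ≤
        ENNReal.ofReal (((1 / 2 : ℝ) ^ n) ^ (s : ℝ) * (|C| * ((1 / 2 : ℝ) ^ n) ^ β)) := by
      intro i hi
      rw [ENNReal.ofReal_mul (by positivity)]
      apply mul_le_mul'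
      · rw [hr]
        simp only []
        rw [ENNReal.ofReal_rpow_of_nonneg h0.le (by positivity)]
      · have h3 : μ (A n i) = ENNReal.ofReal (μ.real (A n i)) := by
          rw [ofReal_measureReal]
        rw [h3]
        apply ENNReal.ofReal_le_ofReal
        refine (hC n i (Finset.mem_range.mp hi)).trans ?_
        exact mul_le_mul_of_nonneg_right (le_abs_self C) (by positivity)
    refine (Finset.sum_le_sum h2).trans ?_
    rw [Finset.sum_const, Finset.card_range, ← ENNReal.ofReal_nsmul]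
    apply ENNReal.ofReal_le_ofReal
    apply le_of_eq
    rw [nsmul_eq_mul]
    have h4 : ((1 / 2 : ℝ) ^ n) ^ (s : ℝ) = ((1 / 2 : ℝ) ^ (s : ℝ)) ^ n := by
      rw [← Real.rpow_natCast, ← Real.rpow_natCast, ← Real.rpow_mul (by norm_num),
        ← Real.rpow_mul (by norm_num), mul_comm]
    have h5 : ((1 / 2 : ℝ) ^ n) ^ β = ((1 / 2 : ℝ) ^ β) ^ n := by
      rw [← Real.rpow_natCast, ← Real.rpow_natCast, ← Real.rpow_mul (by norm_num),
        ← Real.rpow_mul (by norm_num), mul_comm]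
    have h6 : ρ = 2 * ((1 / 2 : ℝ) ^ (s : ℝ) * (1 / 2 : ℝ) ^ β) := by
      rw [hρ, Real.rpow_sub (by norm_num), Real.rpow_add (by norm_num), Real.rpow_one]
      ring
    rw [h4, h5, h6]
    push_cast
    rw [mul_pow, mul_pow]
    ring
  have hsum : ∫⁻ w, ∑' n, g n w ∂μ ≠ ∞ := by
    rw [lintegral_tsum (fun n => (hgm n).aemeasurable)]
    have h1 : Summable (fun n : ℕ => |C| * ρ ^ n) :=
      (summable_geometric_of_lt_one hρ0.le hρ1).mul_left _
    exact ne_top_of_le_ne_top h1.tsum_ofReal_ne_top (ENNReal.tsum_le_tsum hint)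
  have hae : ∀ᵐ w ∂μ, ∑' n, g n w < ∞ :=
    ae_lt_top (Measurable.ennreal_tsum hgm) hsum
  filter_upwards [hae, hcov] with w hw hc
  have hlim : Tendsto (fun n => g n w) atTop (𝓝 0) :=
    ENNReal.tendsto_atTop_zero_of_tsum_ne_top hw.ne
  apply dimH_le_of_hausdorffMeasure_ne_top
  set T : ∀ n : ℕ, Fin (2 ^ n) → Set ℝ := fun n i =>
    if w ∈ A n i then Set.Icc ((i : ℝ) / 2 ^ n) (((i : ℝ) + 1) / 2 ^ n) else ∅ with hT
  have hdiam : ∀ n (i : Fin (2 ^ n)), Metric.ediam (T n i) ≤ r n := by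
    intro n i
    simp only [hT]
    split_ifs with h
    · rw [Real.ediam_Icc, hr]
      apply ENNReal.ofReal_le_ofReal
      apply le_of_eq
      have : (2:ℝ) ^ n ≠ 0 := by positivity
      rw [← sub_div, one_div_pow]
      congr 1
      ring
    · simp
  have hr0 : Tendsto r atTop (𝓝 0) := by
    have h1 : Tendsto (fun n : ℕ => (1 / 2 : ℝ) ^ n) atTop (𝓝 0) :=
      tendsto_pow_atTop_nhds_zero_of_lt_one (by norm_num) (by norm_num)
    have h2 := ENNReal.tendsto_ofReal h1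
    rwa [ENNReal.ofReal_zero] at h2
  have hcover : ∀ n, E w ⊆ ⋃ i, T n i := by
    intro n t ht
    have ht1 := hE w ht
    have h2 : (0:ℝ) < 2 ^ n := by positivity
    obtain ⟨i, hi, h3, h4⟩ : ∃ i : ℕ, i < 2 ^ n ∧ (i:ℝ) / 2 ^ n ≤ t ∧ t ≤ ((i:ℝ) + 1) / 2 ^ n := by
      by_cases h1 : t = 1
      · refine ⟨2 ^ n - 1, Nat.sub_lt (by positivity) one_pos, ?_, ?_⟩
        · rw [h1, div_le_one h2, Nat.cast_sub Nat.one_le_two_pow]
          push_cast; linarith
        · rw [h1, le_div_iff₀ h2, Nat.cast_sub Nat.one_le_two_pow]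
          push_cast; linarith
      · have ht2 : t < 1 := lt_of_le_of_ne ht1.2 h1
        refine ⟨⌊t * 2 ^ n⌋₊, ?_, ?_, ?_⟩
        · rw [Nat.floor_lt (mul_nonneg ht1.1 h2.le)]
          push_cast
          nlinarith
        · rw [div_le_iff₀ h2]
          exact Nat.floor_le (mul_nonneg ht1.1 h2.le)
        · rw [le_div_iff₀ h2]
          exact (Nat.lt_floor_add_one _).le
    refine Set.mem_iUnion.mpr ⟨⟨i, hi⟩, ?_⟩
    simp only [hT]
    rw [if_pos (hc t ht n i hi h3 h4)]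
    exact ⟨h3, h4⟩
  have hmain := Measure.hausdorffMeasure_le_liminf_sum (s : ℝ) (E w) r hr0 T
    (Filter.Eventually.of_forall hdiam) (Filter.Eventually.of_forall hcover)
  have hle : ∀ n, ∑ i, Metric.ediam (T n i) ^ (s : ℝ) ≤ g n w := by
    intro n
    rw [hg]
    simp only []
    rw [Finset.sum_range]
    apply Finset.sum_le_sum
    intro i _
    by_cases h : w ∈ A n i
    · rw [Set.indicator_of_mem h]
      exact ENNReal.rpow_le_rpow (hdiam n i) (by positivity)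
    · rw [Set.indicator_of_notMem h]
      simp only [hT]
      rw [if_neg h, Metric.ediam_empty, ENNReal.zero_rpow_of_pos (by exact_mod_cast hs0)]
  have hlim2 : Tendsto (fun n => ∑ i, Metric.ediam (T n i) ^ (s : ℝ)) atTop (𝓝 0) :=
    tendsto_of_tendsto_of_tendsto_of_le_of_le tendsto_const_nhds hlim (fun _ => bot_le) hle
  rw [hlim2.liminf_eq] at hmain
  exact ne_top_of_le_ne_top ENNReal.zero_ne_top hmain

theorem upa : Pool.Agent.Y554.DP.S_UPA := by
  intro β hβ0 hβ1 Ω _ μ _ E C A hE hA hC hcov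
  have h1 : ∀ m : ℕ, ∀ᵐ w ∂μ, dimH (E w) ≤ ENNReal.ofReal (1 - β + 1 / ((m : ℝ) + 1)) := by
    intro m
    have hpos : 0 < 1 - β + 1 / ((m : ℝ) + 1) := by
      have : (0:ℝ) < 1 / ((m : ℝ) + 1) := by positivity
      linarith
    have h2 : ((1 - β + 1 / ((m : ℝ) + 1)).toNNReal : ℝ) = 1 - β + 1 / ((m : ℝ) + 1) :=
      Real.coe_toNNReal _ hpos.le
    have h3 := core μ E C A hE hA hC hcov (1 - β + 1 / ((m : ℝ) + 1)).toNNReal
      (Real.toNNReal_pos.mpr hpos) (by
        rw [h2]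
        have : (0:ℝ) < 1 / ((m : ℝ) + 1) := by positivity
        linarith)
    exact h3
  rw [← ae_all_iff] at h1
  filter_upwards [h1] with w hw
  have hlim : Tendsto (fun m : ℕ => 1 - β + 1 / ((m : ℝ) + 1)) atTop (𝓝 (1 - β + 0)) :=
    tendsto_const_nhds.add tendsto_one_div_add_atTop_nhds_zero_nat
  rw [add_zero] at hlim
  exact ge_of_tendsto (ENNReal.tendsto_ofReal hlim) (Filter.Eventually.of_forall hw)

end Pool.Agent.Y681.DP
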